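import Pool.Agent.WeylTwo.Spec

/-! The conjectured bound fails for `k = 2` and every exponent `0 < s < 3` (WeylTwo/End). -/

set_option autoImplicit false

noncomputable section

namespace Pool.Agent.WeylTwo

open Finset MeasureTheory Pool.Agent.Lib.MP_ccba9a_nt

private def B0 (w : ℝ) : Set (Fin 2 → ℝ) :=
  Set.pi Set.univ (fun j => Set.Ico (0:ℝ) ((![w, 1] : Fin 2 → ℝ) j))

private lemma B0_vol (w : ℝ) (hw : 0 ≤ w) : (volume (B0 w)).toReal = w := by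
  unfold B0
  rw [Real.volume_pi_Ico_toReal]
  · rw [Fin.prod_univ_two]
    simp
  · intro j
    fin_cases j
    · simpa using hw
    · simp

private lemma B0_sub (w : ℝ) (hw : w ≤ 1) : B0 w ⊆ Set.pi Set.univ (fun _ => Set.Ico (0:ℝ) 1) := by
  intro α hα
  rw [B0, Set.mem_univ_pi] at hα
  rw [Set.mem_univ_pi]
  intro j
  have hj := hα j
  fin_cases j
  · simp only [Set.mem_Ico, Fin.zero_eta, Matrix.cons_val_zero] at hj ⊢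
    exact ⟨hj.1, lt_of_lt_of_le hj.2 hw⟩
  · simp only [Set.mem_Ico, Fin.mk_one, Matrix.cons_val_one, Matrix.cons_val_fin_one] at hj ⊢
    exact hj

private lemma S_mem (Q : ℕ) : ∀ s ∈ S Q, s.1.Prime ∧ s.1 ≤ Q ∧ 1 ≤ s.2 ∧ s.2 < s.1 := by
  intro s hs
  rw [S, Finset.mem_filter, Finset.mem_product, Nat.mem_primesLE, Nat.mem_primesLE] at hs
  exact ⟨hs.1.1.2, hs.1.1.1, hs.1.2.2.one_le, hs.2⟩

/-- the geometric part: a set `B` for `X = m^6`, `Q = m^5` -/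
private lemma geo (m : ℕ) (hm : 2 ≤ m) (c s : ℝ) (hc : 0 < c) (hs : 0 < s)
    (hw : c * ((m:ℝ) ^ 3)⁻¹ ≤ 1) :
    ∃ B : Set (Fin 2 → ℝ), MeasurableSet B ∧ B ⊆ Set.pi Set.univ (fun _ => Set.Ico (0:ℝ) 1) ∧
      c * ((m:ℝ) ^ 3)⁻¹ ≤ (volume B).toReal ∧ (volume B).toReal ≤ (c + 1) * ((m:ℝ) ^ 3)⁻¹ ∧
      ∫ α in T (m ^ 6) (S (m ^ 5)), ‖F (m ^ 6) α‖ ^ (2 * s) ≤
        ∫ α in B, ‖F (m ^ 6) α‖ ^ (2 * s) := by
  have hmR : (2:ℝ) ≤ m := by exact_mod_cast hm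
  have hm0 : (0:ℝ) < m := by linarith
  have hX : 0 < m ^ 6 := by positivity
  have hQX : m ^ 5 ≤ m ^ 6 := Nat.pow_le_pow_right (by omega) (by norm_num)
  have hS' : ∀ s ∈ S (m ^ 5), s.1.Prime ∧ s.1 ≤ m ^ 6 ∧ 1 ≤ s.2 ∧ s.2 < s.1 := by
    intro s hs
    obtain ⟨h1, h2, h3⟩ := S_mem (m ^ 5) s hs
    exact ⟨h1, h2.trans hQX, h3⟩
  set w : ℝ := c * ((m:ℝ) ^ 3)⁻¹ with hwd
  have hw0 : 0 ≤ w := by positivity
  set Tm := T (m ^ 6) (S (m ^ 5)) with hTm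
  have hTsub : Tm ⊆ Set.pi Set.univ (fun _ => Set.Ico (0:ℝ) 1) := T_sub (m ^ 6) hX _ hS'
  have hTmeas : MeasurableSet Tm := T_meas _ _
  have hB0meas : MeasurableSet (B0 w) := MeasurableSet.univ_pi (fun _ => measurableSet_Ico)
  have hBsub : B0 w ∪ Tm ⊆ Set.pi Set.univ (fun _ => Set.Ico (0:ℝ) 1) :=
    Set.union_subset (B0_sub w hw) hTsub
  have hBmeas : MeasurableSet (B0 w ∪ Tm) := hB0meas.union hTmeas
  have hunit : volume (Set.pi Set.univ (fun _ : Fin 2 => Set.Ico (0:ℝ) 1)) ≠ ⊤ := by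
    rw [Real.volume_pi_Ico]
    exact ENNReal.prod_ne_top (fun _ _ => ENNReal.ofReal_ne_top)
  have hBfin : volume (B0 w ∪ Tm) ≠ ⊤ := ne_top_of_le_ne_top hunit (measure_mono hBsub)
  have hTfin : volume Tm ≠ ⊤ := ne_top_of_le_ne_top hunit (measure_mono hTsub)
  have hB0fin : volume (B0 w) ≠ ⊤ := ne_top_of_le_ne_top hunit (measure_mono (B0_sub w hw))
  have hvol1 : w ≤ (volume (B0 w ∪ Tm)).toReal := by
    refine le_trans (le_of_eq (B0_vol w hw0).symm) ?_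
    exact ENNReal.toReal_mono hBfin (measure_mono Set.subset_union_left)
  have hTvol : (volume Tm).toReal ≤ ((m:ℝ) ^ 3)⁻¹ := by
    refine (T_vol (m ^ 6) (m ^ 5) (S (m ^ 5)) (fun s hs => (S_mem (m ^ 5) s hs).2.1)).trans ?_
    have hc : ((S (m ^ 5)).card : ℝ) ≤ (2 * (m:ℝ) ^ 5) ^ 2 := by
      have h1 : ((S (m ^ 5)).card : ℝ) ≤ (((m ^ 5 + 1) ^ 2 : ℕ) : ℝ) := by
        exact_mod_cast S_card_le (m ^ 5)
      refine h1.trans ?_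
      push_cast
      have : (1:ℝ) ≤ (m:ℝ) ^ 5 := one_le_pow₀ (by linarith)
      gcongr
      linarith
    push_cast
    calc ((S (m ^ 5)).card : ℝ) * (m:ℝ) ^ 5 / (144 * ((m:ℝ) ^ 6) ^ 3)
        ≤ (2 * (m:ℝ) ^ 5) ^ 2 * (m:ℝ) ^ 5 / (144 * ((m:ℝ) ^ 6) ^ 3) := by gcongr
      _ = (1/36) * ((m:ℝ) ^ 3)⁻¹ := by field_simp; norm_num
      _ ≤ 1 * ((m:ℝ) ^ 3)⁻¹ := by
          gcongr
          norm_num
      _ = ((m:ℝ) ^ 3)⁻¹ := by rw [one_mul]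
  have hvol2 : (volume (B0 w ∪ Tm)).toReal ≤ (c + 1) * ((m:ℝ) ^ 3)⁻¹ := by
    have h1 : (volume (B0 w ∪ Tm)).toReal ≤ (volume (B0 w)).toReal + (volume Tm).toReal := by
      rw [← ENNReal.toReal_add hB0fin hTfin]
      exact ENNReal.toReal_mono (ENNReal.add_ne_top.mpr ⟨hB0fin, hTfin⟩) (measure_union_le _ _)
    rw [B0_vol w hw0] at h1
    have h2 : (c + 1) * ((m:ℝ) ^ 3)⁻¹ = w + ((m:ℝ) ^ 3)⁻¹ := by rw [hwd]; ring
    linarith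
  have hcont : Continuous (fun α => ‖F (m ^ 6) α‖ ^ (2 * s)) := by
    have hcF := F_cont (m ^ 6)
    exact Continuous.rpow_const (by fun_prop) (fun α => Or.inr (by linarith))
  have hint : IntegrableOn (fun α => ‖F (m ^ 6) α‖ ^ (2 * s)) (B0 w ∪ Tm) := by
    have h1 : IntegrableOn (fun α => ‖F (m ^ 6) α‖ ^ (2 * s)) (Set.Icc (0 : Fin 2 → ℝ) 1) :=
      hcont.continuousOn.integrableOn_compact isCompact_Icc
    refine h1.mono_set ?_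
    intro α hα
    have := hBsub hα
    rw [Set.mem_univ_pi] at this
    exact ⟨fun j => (this j).1, fun j => (this j).2.le⟩
  refine ⟨B0 w ∪ Tm, hBmeas, hBsub, hvol1, hvol2, ?_⟩
  refine setIntegral_mono_set hint ?_ ?_
  · exact Filter.Eventually.of_forall (fun α => by positivity)
  · exact (Set.subset_union_right).eventuallyLE

private lemma pc_two (m : ℕ) (hm : 2 ≤ m) : 2 ≤ Nat.primeCounting (m ^ 5) := by
  have h1 : 3 ≤ m ^ 5 := by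
    calc 3 ≤ 2 ^ 5 := by norm_num
      _ ≤ m ^ 5 := Nat.pow_le_pow_left hm 5
  have h2 : Nat.primeCounting 3 ≤ Nat.primeCounting (m ^ 5) := Nat.monotone_primeCounting h1
  have h3 : Nat.primeCounting 3 = 2 := by decide
  omega

theorem tEnd (hPi : S_Pi) (hLa : S_La) (hLb : S_Lb) : S_End := by
  rintro s c ε hs0 hs3 hc hε h6 h65 ⟨C, hC⟩
  obtain ⟨κ, hκ, hlow⟩ : ∃ κ : ℝ, 0 < κ ∧ ∀ X Q : ℕ, Q ≤ X → 2 ≤ Nat.primeCounting Q →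
      κ * (Nat.primeCounting Q : ℝ) ^ 3 * (Q : ℝ) ^ (-s) * (X : ℝ) ^ (2 * s - 3) ≤
        ∫ α in T X (S Q), ‖F X α‖ ^ (2 * s) := by
    rcases le_or_gt 1 s with h | h
    · exact hLa s h
    · exact hLb s hs0 h
  obtain ⟨δ, hδ, hδ1, hδ2⟩ : ∃ δ : ℝ, 0 < δ ∧ 30 * δ ≤ s - 6 * ε ∧
      30 * δ ≤ 5 * (3 - s) - 6 * ε := by
    refine ⟨min (s - 6 * ε) (5 * (3 - s) - 6 * ε) / 30, ?_, ?_, ?_⟩
    · have : 0 < min (s - 6 * ε) (5 * (3 - s) - 6 * ε) := lt_min (by linarith) (by linarith)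
      positivity
    · have := min_le_left (s - 6 * ε) (5 * (3 - s) - 6 * ε)
      linarith
    · have := min_le_right (s - 6 * ε) (5 * (3 - s) - 6 * ε)
      linarith
  obtain ⟨Q0, hQ0⟩ := hPi δ hδ
  -- a large `m`
  have hev1 : ∀ᶠ m : ℕ in Filter.atTop, |C| * (c + 2) / κ < (m : ℝ) ^ (15 * δ) :=
    ((tendsto_rpow_atTop (by positivity : 0 < 15 * δ)).comp
      tendsto_natCast_atTop_atTop).eventually_gt_atTop _
  have hev2 : ∀ᶠ m : ℕ in Filter.atTop, c < (m : ℝ) :=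
    tendsto_natCast_atTop_atTop.eventually_gt_atTop _
  obtain ⟨m, ⟨h1, h2⟩, h3, h4⟩ :=
    ((hev1.and hev2).and ((Filter.eventually_ge_atTop 2).and (Filter.eventually_ge_atTop Q0))).exists
  have hmR : (2:ℝ) ≤ m := by exact_mod_cast h3
  have hm0 : (0:ℝ) < m := by linarith
  have hm1 : (1:ℝ) ≤ m := by linarith
  have hw : c * ((m:ℝ) ^ 3)⁻¹ ≤ 1 := by
    rw [← div_eq_mul_inv, div_le_one (by positivity)]
    calc c ≤ m := h2.le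
      _ = (m:ℝ) ^ 1 := (pow_one _).symm
      _ ≤ (m:ℝ) ^ 3 := pow_le_pow_right₀ hm1 (by norm_num)
  obtain ⟨B, hBm, hBs, hB1, hB2, hB3⟩ := geo m h3 c s hc hs0 hw
  have hX : ∀ y : ℝ, ((m ^ 6 : ℕ) : ℝ) ^ y = (m:ℝ) ^ (6 * y) := by
    intro y
    rw [Nat.cast_pow, ← Real.rpow_natCast, ← Real.rpow_mul hm0.le]
    norm_num
  have hQ : ∀ y : ℝ, ((m ^ 5 : ℕ) : ℝ) ^ y = (m:ℝ) ^ (5 * y) := by
    intro y
    rw [Nat.cast_pow, ← Real.rpow_natCast, ← Real.rpow_mul hm0.le]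
    norm_num
  have h3m : ((m:ℝ) ^ 3)⁻¹ = (m:ℝ) ^ (-3 : ℝ) := by
    rw [Real.rpow_neg hm0.le]
    norm_num
  have hup := hC (m ^ 6) (Nat.one_le_pow _ _ (by omega)) B hBm hBs (by
    rw [hX]
    refine le_trans (le_of_eq ?_) hB1
    rw [h3m]
    norm_num)
  have hlo := hlow (m ^ 6) (m ^ 5) (Nat.pow_le_pow_right (by omega) (by norm_num)) (pc_two m h3)
  have hπ := hQ0 (m ^ 5) (h4.trans (Nat.le_self_pow (by norm_num) m))
  rw [hQ] at hπ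
  have hall := (hlo.trans hB3).trans hup
  rw [hQ, hX, hX, hX] at hall
  -- the lower bound
  have hL : κ * (m:ℝ) ^ (7 * s - 3 - 15 * δ) ≤
      κ * (Nat.primeCounting (m ^ 5) : ℝ) ^ 3 * (m:ℝ) ^ (5 * (-s)) * (m:ℝ) ^ (6 * (2 * s - 3)) := by
    have e : (m:ℝ) ^ (7 * s - 3 - 15 * δ) = ((m:ℝ) ^ (5 * (1 - δ))) ^ 3 * (m:ℝ) ^ (5 * (-s)) *
        (m:ℝ) ^ (6 * (2 * s - 3)) := by
      rw [← Real.rpow_natCast, ← Real.rpow_mul hm0.le, ← Real.rpow_add hm0, ← Real.rpow_add hm0]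
      congr 1
      push_cast
      ring
    rw [e]
    have hn : (0:ℝ) ≤ (m:ℝ) ^ (5 * (1 - δ)) := by positivity
    calc κ * (((m:ℝ) ^ (5 * (1 - δ))) ^ 3 * (m:ℝ) ^ (5 * (-s)) * (m:ℝ) ^ (6 * (2 * s - 3)))
        = κ * ((m:ℝ) ^ (5 * (1 - δ))) ^ 3 * (m:ℝ) ^ (5 * (-s)) * (m:ℝ) ^ (6 * (2 * s - 3)) := by ring
      _ ≤ _ := by gcongr
  -- the upper bound
  have hR : C * (m:ℝ) ^ (6 * ε) * ((m:ℝ) ^ (6 * s) * (volume B).toReal +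
      (m:ℝ) ^ (6 * (2 * s - 3))) ≤ |C| * (c + 2) * (m:ℝ) ^ (7 * s - 3 - 30 * δ) := by
    have hv0 : 0 ≤ (volume B).toReal := ENNReal.toReal_nonneg
    have hb : (m:ℝ) ^ (6 * ε) * ((m:ℝ) ^ (6 * s) * (volume B).toReal +
        (m:ℝ) ^ (6 * (2 * s - 3))) ≤ (c + 2) * (m:ℝ) ^ (7 * s - 3 - 30 * δ) := by
      have f1 : (m:ℝ) ^ (6 * ε) * ((m:ℝ) ^ (6 * s) * ((m:ℝ) ^ (-3 : ℝ))) ≤
          (m:ℝ) ^ (7 * s - 3 - 30 * δ) := by
        rw [← Real.rpow_add hm0, ← Real.rpow_add hm0]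
        exact Real.rpow_le_rpow_of_exponent_le hm1 (by linarith)
      have f2 : (m:ℝ) ^ (6 * ε) * (m:ℝ) ^ (6 * (2 * s - 3)) ≤ (m:ℝ) ^ (7 * s - 3 - 30 * δ) := by
        rw [← Real.rpow_add hm0]
        exact Real.rpow_le_rpow_of_exponent_le hm1 (by linarith)
      rw [h3m] at hB2
      calc (m:ℝ) ^ (6 * ε) * ((m:ℝ) ^ (6 * s) * (volume B).toReal + (m:ℝ) ^ (6 * (2 * s - 3)))
          ≤ (m:ℝ) ^ (6 * ε) * ((m:ℝ) ^ (6 * s) * ((c + 1) * (m:ℝ) ^ (-3 : ℝ)) +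
              (m:ℝ) ^ (6 * (2 * s - 3))) := by gcongr
        _ = (c + 1) * ((m:ℝ) ^ (6 * ε) * ((m:ℝ) ^ (6 * s) * ((m:ℝ) ^ (-3 : ℝ)))) +
              (m:ℝ) ^ (6 * ε) * (m:ℝ) ^ (6 * (2 * s - 3)) := by ring
        _ ≤ (c + 1) * (m:ℝ) ^ (7 * s - 3 - 30 * δ) + (m:ℝ) ^ (7 * s - 3 - 30 * δ) := by gcongr
        _ = (c + 2) * (m:ℝ) ^ (7 * s - 3 - 30 * δ) := by ring
    have hn : 0 ≤ (m:ℝ) ^ (6 * ε) * ((m:ℝ) ^ (6 * s) * (volume B).toReal +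
        (m:ℝ) ^ (6 * (2 * s - 3))) := by positivity
    calc C * (m:ℝ) ^ (6 * ε) * ((m:ℝ) ^ (6 * s) * (volume B).toReal + (m:ℝ) ^ (6 * (2 * s - 3)))
        = C * ((m:ℝ) ^ (6 * ε) * ((m:ℝ) ^ (6 * s) * (volume B).toReal +
            (m:ℝ) ^ (6 * (2 * s - 3)))) := by ring
      _ ≤ |C| * ((m:ℝ) ^ (6 * ε) * ((m:ℝ) ^ (6 * s) * (volume B).toReal +
            (m:ℝ) ^ (6 * (2 * s - 3)))) := mul_le_mul_of_nonneg_right (le_abs_self C) hn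
      _ ≤ |C| * ((c + 2) * (m:ℝ) ^ (7 * s - 3 - 30 * δ)) :=
          mul_le_mul_of_nonneg_left hb (abs_nonneg C)
      _ = _ := by ring
  have hfin := (hL.trans hall).trans hR
  have e : (m:ℝ) ^ (7 * s - 3 - 15 * δ) = (m:ℝ) ^ (15 * δ) * (m:ℝ) ^ (7 * s - 3 - 30 * δ) := by
    rw [← Real.rpow_add hm0]
    congr 1
    ring
  rw [e, ← mul_assoc] at hfin
  have hp : 0 < (m:ℝ) ^ (7 * s - 3 - 30 * δ) := Real.rpow_pos_of_pos hm0 _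
  have hfin2 := le_of_mul_le_mul_right hfin hp
  rw [div_lt_iff₀ hκ] at h1
  linarith

end Pool.Agent.WeylTwo
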