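import Pool.Agent.WeylTwo.Spec

/-! Lower bound for the mean values over the boxes, `s ≥ 1` (WeylTwo/La). -/

set_option autoImplicit false

noncomputable section

namespace Pool.Agent.WeylTwo

open Finset MeasureTheory Pool.Agent.Lib.MP_ccba9a_nt

private lemma tangent (s a z : ℝ) (hs : 1 ≤ s) (ha : 0 < a) (hz : 0 ≤ z) :
    s * a ^ (s - 1) * z - (s - 1) * a ^ s ≤ z ^ s := by
  have h1 : 1 + s * (z / a - 1) ≤ (1 + (z / a - 1)) ^ s := by
    refine one_add_mul_self_le_rpow_one_add ?_ hs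
    have : 0 ≤ z / a := by positivity
    linarith
  have h2 : (1 + (z / a - 1)) ^ s = z ^ s / a ^ s := by
    rw [show 1 + (z / a - 1) = z / a by ring, Real.div_rpow hz ha.le]
  rw [h2] at h1
  have hp : 0 < a ^ s := Real.rpow_pos_of_pos ha s
  rw [le_div_iff₀ hp] at h1
  have h3 : a ^ s = a ^ (s - 1) * a := by
    rw [← Real.rpow_add_one ha.ne']
    congr 1
    ring
  have h4 : (1 + s * (z / a - 1)) * a ^ s = s * a ^ (s - 1) * z - (s - 1) * a ^ s := by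
    rw [h3]
    field_simp
    ring
  linarith

private lemma pc_le (Q : ℕ) : Nat.primeCounting Q ≤ Q := by
  have h : (Nat.primesLE Q).card = Nat.primeCounting Q := by simp
  rw [← h]
  have h2 : Nat.primesLE Q ⊆ Finset.Icc 1 Q := by
    intro p hp
    rw [Nat.mem_primesLE] at hp
    exact Finset.mem_Icc.2 ⟨hp.2.one_le, hp.1⟩
  refine (Finset.card_le_card h2).trans ?_
  simp

private lemma S_mem (Q : ℕ) : ∀ s ∈ S Q, s.1.Prime ∧ s.1 ≤ Q ∧ 1 ≤ s.2 ∧ s.2 < s.1 := by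
  intro s hs
  rw [S, Finset.mem_filter, Finset.mem_product, Nat.mem_primesLE, Nat.mem_primesLE] at hs
  exact ⟨hs.1.1.2, hs.1.1.1, hs.1.2.2.one_le, hs.2⟩

private lemma T_fin (X Q : ℕ) (hX : 0 < X) (hQ : Q ≤ X) : volume (T X (S Q)) ≠ ⊤ := by
  have hS : ∀ s ∈ S Q, s.1.Prime ∧ s.1 ≤ X ∧ 1 ≤ s.2 ∧ s.2 < s.1 := by
    intro s hs
    obtain ⟨h1, h2, h3⟩ := S_mem Q s hs
    exact ⟨h1, h2.trans hQ, h3⟩
  have hunit : volume (Set.pi Set.univ (fun _ : Fin 2 => Set.Ico (0:ℝ) 1)) ≠ ⊤ := by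
    rw [Real.volume_pi_Ico]
    exact ENNReal.prod_ne_top (fun _ _ => ENNReal.ofReal_ne_top)
  exact ne_top_of_le_ne_top hunit (measure_mono (T_sub X hX _ hS))

private lemma T_io (X Q : ℕ) (hX : 0 < X) (hQ : Q ≤ X) (g : (Fin 2 → ℝ) → ℝ) (hg : Continuous g) :
    IntegrableOn g (T X (S Q)) := by
  have hS : ∀ s ∈ S Q, s.1.Prime ∧ s.1 ≤ X ∧ 1 ≤ s.2 ∧ s.2 < s.1 := by
    intro s hs
    obtain ⟨h1, h2, h3⟩ := S_mem Q s hs
    exact ⟨h1, h2.trans hQ, h3⟩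
  have h1 : IntegrableOn g (Set.Icc (0 : Fin 2 → ℝ) 1) :=
    hg.continuousOn.integrableOn_compact isCompact_Icc
  refine h1.mono_set ?_
  intro α hα
  have := T_sub X hX _ hS hα
  rw [Set.mem_univ_pi] at this
  exact ⟨fun j => (this j).1, fun j => (this j).2.le⟩

private lemma n_ge (Q : ℕ) (h : 2 ≤ Nat.primeCounting Q) :
    (Nat.primeCounting Q : ℝ) ^ 2 / 4 ≤ ((S Q).card : ℝ) := by
  have h1 : ((Nat.primeCounting Q : ℝ))^2 ≤ 2 * ((S Q).card : ℝ) + Nat.primeCounting Q := by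
    exact_mod_cast S_card_ge Q
  have h2 : (2:ℝ) ≤ (Nat.primeCounting Q : ℝ) := by exact_mod_cast h
  nlinarith

theorem tLa : S_La := by
  intro s hs
  refine ⟨(2:ℝ) ^ (1 - s) / 1152, by positivity, fun X Q hQX hpi => ?_⟩
  have hQ2 : 2 ≤ Q := hpi.trans (pc_le Q)
  have hX0 : 0 < X := by omega
  have hXR : (0:ℝ) < X := by exact_mod_cast hX0
  have hQR : (0:ℝ) < Q := by
    have : 0 < Q := by omega
    exact_mod_cast this
  set π : ℝ := (Nat.primeCounting Q : ℝ) with hπ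
  have hπ2 : (2:ℝ) ≤ π := by rw [hπ]; exact_mod_cast hpi
  have hπQ : π ≤ Q := by rw [hπ]; exact_mod_cast pc_le Q
  set n : ℝ := ((S Q).card : ℝ) with hn
  have hnπ : π ^ 2 / 4 ≤ n := n_ge Q hpi
  have hn0 : 0 < n := lt_of_lt_of_le (by positivity) hnπ
  have hS : ∀ s ∈ S Q, s.1.Prime ∧ s.1 ≤ X ∧ 1 ≤ s.2 ∧ s.2 < s.1 := by
    intro s hs
    obtain ⟨h1, h2, h3⟩ := S_mem Q s hs
    exact ⟨h1, h2.trans hQX, h3⟩
  have hM : n / (288 * X) ≤ ∫ α in T X (S Q), ‖F X α‖ ^ 2 := T_int X hX0 (S Q) hS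
  have hV : (volume (T X (S Q))).toReal ≤ n * Q / (144 * (X:ℝ) ^ 3) :=
    T_vol X Q (S Q) (fun s hs => (S_mem Q s hs).2.1)
  set a : ℝ := (X:ℝ) ^ 2 / (2 * Q) with ha
  have ha0 : 0 < a := by positivity
  have hcF := F_cont X
  have hc1 : Continuous (fun α => ‖F X α‖ ^ 2) := by fun_prop
  have hc2 : Continuous (fun α => ‖F X α‖ ^ (2 * s)) := by
    refine Continuous.rpow_const (by fun_prop) (fun α => Or.inr (by linarith))
  have hi1 := T_io X Q hX0 hQX _ hc1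
  have hi2 := T_io X Q hX0 hQX _ hc2
  have hlow : ∫ α in T X (S Q), (s * a ^ (s - 1) * ‖F X α‖ ^ 2 - (s - 1) * a ^ s) ≤
      ∫ α in T X (S Q), ‖F X α‖ ^ (2 * s) := by
    refine setIntegral_mono ((hi1.const_mul _).sub (integrableOn_const (T_fin X Q hX0 hQX))) hi2 ?_
    intro α
    have h := tangent s a (‖F X α‖ ^ 2) hs ha0 (by positivity)
    have h2 : (‖F X α‖ ^ 2) ^ s = ‖F X α‖ ^ (2 * s) := by
      rw [← Real.rpow_natCast, ← Real.rpow_mul (norm_nonneg _)]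
      norm_num
    rw [h2] at h
    exact h
  have heq : ∫ α in T X (S Q), (s * a ^ (s - 1) * ‖F X α‖ ^ 2 - (s - 1) * a ^ s) =
      s * a ^ (s - 1) * (∫ α in T X (S Q), ‖F X α‖ ^ 2) -
        (s - 1) * a ^ s * (volume (T X (S Q))).toReal := by
    rw [integral_sub (hi1.const_mul _) (integrableOn_const (T_fin X Q hX0 hQX)),
      integral_const_mul, setIntegral_const]
    simp only [smul_eq_mul, Measure.real]
    ring
  rw [heq] at hlow
  refine le_trans ?_ hlow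
  have hp1 : 0 < a ^ (s - 1) := Real.rpow_pos_of_pos ha0 _
  have h3 : a ^ s = a ^ (s - 1) * a := by
    rw [← Real.rpow_add_one ha0.ne']
    congr 1
    ring
  have h4 : a ^ (s - 1) * (n / (288 * X)) ≤
      s * a ^ (s - 1) * (∫ α in T X (S Q), ‖F X α‖ ^ 2) -
        (s - 1) * a ^ s * (volume (T X (S Q))).toReal := by
    rw [h3]
    have e1 : a ^ (s - 1) * (n / (288 * X)) = s * a ^ (s - 1) * (n / (288 * X)) -
        (s - 1) * (a ^ (s - 1) * a) * (n * Q / (144 * (X:ℝ) ^ 3)) := by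
      rw [ha]
      field_simp
      ring
    rw [e1]
    have hs1 : 0 ≤ s - 1 := by linarith
    have hs0 : 0 ≤ s := by linarith
    gcongr
  refine le_trans ?_ h4
  have e2 : a ^ (s - 1) = (2:ℝ) ^ (1 - s) * (Q:ℝ) ^ (1 - s) * (X:ℝ) ^ (2 * s - 2) := by
    rw [ha, Real.div_rpow (by positivity) (by positivity), Real.mul_rpow (by norm_num) hQR.le,
      ← Real.rpow_natCast, ← Real.rpow_mul hXR.le]
    rw [show (1 - s) = -(s - 1) by ring, Real.rpow_neg (by norm_num), Real.rpow_neg hQR.le]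
    rw [show ((2:ℕ):ℝ) * (s - 1) = 2 * s - 2 by push_cast; ring]
    field_simp
  rw [e2]
  have e3 : (X:ℝ) ^ (2 * s - 2) = (X:ℝ) ^ (2 * s - 3) * X := by
    rw [← Real.rpow_add_one hXR.ne']
    congr 1
    ring
  have e4 : (Q:ℝ) ^ (1 - s) = (Q:ℝ) ^ (-s) * Q := by
    rw [← Real.rpow_add_one hQR.ne']
    congr 1
    ring
  rw [e3, e4]
  have hA : 0 < (2:ℝ) ^ (1 - s) := by positivity
  have hB : 0 < (Q:ℝ) ^ (-s) := by positivity
  have hC : 0 < (X:ℝ) ^ (2 * s - 3) := by positivity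
  calc (2:ℝ) ^ (1 - s) / 1152 * π ^ 3 * (Q:ℝ) ^ (-s) * (X:ℝ) ^ (2 * s - 3)
      = ((2:ℝ) ^ (1 - s) * (Q:ℝ) ^ (-s) * (X:ℝ) ^ (2 * s - 3) / 288) * (π * (π ^ 2 / 4)) := by ring
    _ ≤ ((2:ℝ) ^ (1 - s) * (Q:ℝ) ^ (-s) * (X:ℝ) ^ (2 * s - 3) / 288) * (Q * n) := by gcongr
    _ = (2:ℝ) ^ (1 - s) * ((Q:ℝ) ^ (-s) * Q) * ((X:ℝ) ^ (2 * s - 3) * X) * (n / (288 * X)) := by
        field_simp

end Pool.Agent.WeylTwo
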