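import Pool.Agent.WeylTwo.Spec

/-! Lower bound for the mean values over the boxes, `0 < s < 1` (WeylTwo/Lb). -/

set_option autoImplicit false

noncomputable section

namespace Pool.Agent.WeylTwo

open Finset MeasureTheory Pool.Agent.Lib.MP_ccba9a_nt

private lemma tangent (s a z : ℝ) (hs0 : 0 < s) (hs : s < 1) (ha : 0 < a) (hz : 0 ≤ z) :
    (2 - s) * a ^ (s - 1) * z - (1 - s) * (a ^ (s - 1) / a) * z ^ 2 ≤ z ^ s := by
  rcases hz.eq_or_lt with rfl | hz0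
  · rw [Real.zero_rpow hs0.ne']
    simp
  have h1 : 1 - (1 - s) * (z / a - 1) ≤ (z / a) ^ (-(1 - s)) := by
    have hw : 0 < z / a := by positivity
    rw [Real.rpow_def_of_pos hw]
    have h2 := Real.add_one_le_exp (Real.log (z / a) * -(1 - s))
    have h3 := Real.log_le_sub_one_of_pos hw
    have h4 : 0 < 1 - s := by linarith
    nlinarith
  have h2 : (z / a) ^ (-(1 - s)) * (z * a ^ (s - 1)) = z ^ s := by
    rw [show -(1 - s) = s - 1 by ring, Real.div_rpow hz0.le ha.le]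
    have h5 : z ^ s = z ^ (s - 1) * z := by
      rw [← Real.rpow_add_one hz0.ne']
      congr 1
      ring
    have h6 : 0 < a ^ (s - 1) := Real.rpow_pos_of_pos ha _
    rw [h5]
    field_simp
  have h7 : 0 < z * a ^ (s - 1) := mul_pos hz0 (Real.rpow_pos_of_pos ha _)
  have h8 := mul_le_mul_of_nonneg_right h1 h7.le
  rw [h2] at h8
  have h9 : (1 - (1 - s) * (z / a - 1)) * (z * a ^ (s - 1)) =
      (2 - s) * a ^ (s - 1) * z - (1 - s) * (a ^ (s - 1) / a) * z ^ 2 := by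
    field_simp
    ring
  linarith

private lemma pc_le (Q : ℕ) : Nat.primeCounting Q ≤ Q := by
  have h : (Nat.primesLE Q).card = Nat.primeCounting Q := by simp
  rw [← h]
  have h2 : Nat.primesLE Q ⊆ Finset.Icc 1 Q := by
    intro p hp
    rw [Nat.mem_primesLE] at hp
    exact Finset.mem_Icc.2 ⟨hp.2.one_le, hp.1⟩
  refine (Finset.card_le_card h2).trans ?_
  simp

private lemma S_mem (Q : ℕ) : ∀ s ∈ S Q, s.1.Prime ∧ s.1 ≤ Q ∧ 1 ≤ s.2 ∧ s.2 < s.1 := by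
  intro s hs
  rw [S, Finset.mem_filter, Finset.mem_product, Nat.mem_primesLE, Nat.mem_primesLE] at hs
  exact ⟨hs.1.1.2, hs.1.1.1, hs.1.2.2.one_le, hs.2⟩

private lemma T_fin (X Q : ℕ) (hX : 0 < X) (hQ : Q ≤ X) : volume (T X (S Q)) ≠ ⊤ := by
  have hS : ∀ s ∈ S Q, s.1.Prime ∧ s.1 ≤ X ∧ 1 ≤ s.2 ∧ s.2 < s.1 := by
    intro s hs
    obtain ⟨h1, h2, h3⟩ := S_mem Q s hs
    exact ⟨h1, h2.trans hQ, h3⟩
  have hunit : volume (Set.pi Set.univ (fun _ : Fin 2 => Set.Ico (0:ℝ) 1)) ≠ ⊤ := by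
    rw [Real.volume_pi_Ico]
    exact ENNReal.prod_ne_top (fun _ _ => ENNReal.ofReal_ne_top)
  exact ne_top_of_le_ne_top hunit (measure_mono (T_sub X hX _ hS))

private lemma T_io (X Q : ℕ) (hX : 0 < X) (hQ : Q ≤ X) (g : (Fin 2 → ℝ) → ℝ) (hg : Continuous g) :
    IntegrableOn g (T X (S Q)) := by
  have hS : ∀ s ∈ S Q, s.1.Prime ∧ s.1 ≤ X ∧ 1 ≤ s.2 ∧ s.2 < s.1 := by
    intro s hs
    obtain ⟨h1, h2, h3⟩ := S_mem Q s hs
    exact ⟨h1, h2.trans hQ, h3⟩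
  have h1 : IntegrableOn g (Set.Icc (0 : Fin 2 → ℝ) 1) :=
    hg.continuousOn.integrableOn_compact isCompact_Icc
  refine h1.mono_set ?_
  intro α hα
  have := T_sub X hX _ hS hα
  rw [Set.mem_univ_pi] at this
  exact ⟨fun j => (this j).1, fun j => (this j).2.le⟩

private lemma n_ge (Q : ℕ) (h : 2 ≤ Nat.primeCounting Q) :
    (Nat.primeCounting Q : ℝ) ^ 2 / 4 ≤ ((S Q).card : ℝ) := by
  have h1 : ((Nat.primeCounting Q : ℝ))^2 ≤ 2 * ((S Q).card : ℝ) + Nat.primeCounting Q := by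
    exact_mod_cast S_card_ge Q
  have h2 : (2:ℝ) ≤ (Nat.primeCounting Q : ℝ) := by exact_mod_cast h
  nlinarith

theorem tLb (hLf : S_Lf) : S_Lb := by
  intro s hs0 hs
  refine ⟨(64:ℝ) ^ (s - 1) / 1152, by positivity, fun X Q hQX hpi => ?_⟩
  have hQ2 : 2 ≤ Q := hpi.trans (pc_le Q)
  have hX0 : 0 < X := by omega
  have hXR : (0:ℝ) < X := by exact_mod_cast hX0
  have hQR : (0:ℝ) < Q := by
    have : 0 < Q := by omega
    exact_mod_cast this
  set π : ℝ := (Nat.primeCounting Q : ℝ) with hπ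
  have hπ2 : (2:ℝ) ≤ π := by rw [hπ]; exact_mod_cast hpi
  have hπ0 : 0 < π := by linarith
  have hπQ : π ≤ Q := by rw [hπ]; exact_mod_cast pc_le Q
  have hnπ : π ^ 2 / 4 ≤ ((S Q).card : ℝ) := n_ge Q hpi
  have hS : ∀ s ∈ S Q, s.1.Prime ∧ s.1 ≤ X ∧ 1 ≤ s.2 ∧ s.2 < s.1 := by
    intro s hs
    obtain ⟨h1, h2, h3⟩ := S_mem Q s hs
    exact ⟨h1, h2.trans hQX, h3⟩
  have hM : π ^ 2 / (1152 * X) ≤ ∫ α in T X (S Q), ‖F X α‖ ^ 2 := by
    refine le_trans ?_ (T_int X hX0 (S Q) hS)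
    calc π ^ 2 / (1152 * X) = (π ^ 2 / 4) / (288 * X) := by field_simp; norm_num
      _ ≤ _ := by gcongr
  have hW : ∫ α in T X (S Q), ‖F X α‖ ^ 4 ≤ π * X / 18 := hLf X Q hX0 hQX
  set a : ℝ := 64 * (X:ℝ) ^ 2 / π with ha
  have ha0 : 0 < a := by positivity
  have hcF := F_cont X
  have hc1 : Continuous (fun α => ‖F X α‖ ^ 2) := by fun_prop
  have hc4 : Continuous (fun α => ‖F X α‖ ^ 4) := by fun_prop
  have hc2 : Continuous (fun α => ‖F X α‖ ^ (2 * s)) := by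
    refine Continuous.rpow_const (by fun_prop) (fun α => Or.inr (by linarith))
  have hi1 := T_io X Q hX0 hQX _ hc1
  have hi4 := T_io X Q hX0 hQX _ hc4
  have hi2 := T_io X Q hX0 hQX _ hc2
  have hlow : ∫ α in T X (S Q), ((2 - s) * a ^ (s - 1) * ‖F X α‖ ^ 2 -
      (1 - s) * (a ^ (s - 1) / a) * ‖F X α‖ ^ 4) ≤ ∫ α in T X (S Q), ‖F X α‖ ^ (2 * s) := by
    refine setIntegral_mono ((hi1.const_mul _).sub (hi4.const_mul _)) hi2 ?_
    intro α
    have h := tangent s a (‖F X α‖ ^ 2) hs0 hs ha0 (by positivity)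
    have h2 : (‖F X α‖ ^ 2) ^ s = ‖F X α‖ ^ (2 * s) := by
      rw [← Real.rpow_natCast, ← Real.rpow_mul (norm_nonneg _)]
      norm_num
    have h3 : (‖F X α‖ ^ 2) ^ 2 = ‖F X α‖ ^ 4 := by ring
    rw [h2, h3] at h
    exact h
  have heq : ∫ α in T X (S Q), ((2 - s) * a ^ (s - 1) * ‖F X α‖ ^ 2 -
      (1 - s) * (a ^ (s - 1) / a) * ‖F X α‖ ^ 4) =
      (2 - s) * a ^ (s - 1) * (∫ α in T X (S Q), ‖F X α‖ ^ 2) -
        (1 - s) * (a ^ (s - 1) / a) * (∫ α in T X (S Q), ‖F X α‖ ^ 4) := by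
    rw [integral_sub (hi1.const_mul _) (hi4.const_mul _), integral_const_mul, integral_const_mul]
  rw [heq] at hlow
  refine le_trans ?_ hlow
  have hp1 : 0 < a ^ (s - 1) := Real.rpow_pos_of_pos ha0 _
  have h4 : a ^ (s - 1) * (π ^ 2 / (1152 * X)) ≤
      (2 - s) * a ^ (s - 1) * (∫ α in T X (S Q), ‖F X α‖ ^ 2) -
        (1 - s) * (a ^ (s - 1) / a) * (∫ α in T X (S Q), ‖F X α‖ ^ 4) := by
    have e1 : a ^ (s - 1) * (π ^ 2 / (1152 * X)) =
        (2 - s) * a ^ (s - 1) * (π ^ 2 / (1152 * X)) -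
          (1 - s) * (a ^ (s - 1) / a) * (π * X / 18) := by
      have : (a ^ (s - 1) / a) * (π * X / 18) = a ^ (s - 1) * (π ^ 2 / (1152 * X)) := by
        rw [div_mul_eq_mul_div, div_eq_iff ha0.ne', mul_assoc]
        congr 1
        rw [ha]
        field_simp
        norm_num
      rw [mul_assoc (1 - s), this]
      ring
    rw [e1]
    have hs1 : 0 ≤ 1 - s := by linarith
    have hs2 : 0 ≤ 2 - s := by linarith
    gcongr
  refine le_trans ?_ h4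
  have e2 : a ^ (s - 1) = (64:ℝ) ^ (s - 1) * (X:ℝ) ^ (2 * s - 2) * π ^ (1 - s) := by
    rw [ha, Real.div_rpow (by positivity) hπ0.le, Real.mul_rpow (by norm_num) (by positivity),
      ← Real.rpow_natCast, ← Real.rpow_mul hXR.le]
    rw [show (1 - s) = -(s - 1) by ring, Real.rpow_neg hπ0.le]
    rw [show ((2:ℕ):ℝ) * (s - 1) = 2 * s - 2 by push_cast; ring]
    field_simp
  rw [e2]
  have e3 : (X:ℝ) ^ (2 * s - 2) = (X:ℝ) ^ (2 * s - 3) * X := by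
    rw [← Real.rpow_add_one hXR.ne']
    congr 1
    ring
  have e4 : π ^ (1 - s) = π ^ (-s) * π := by
    rw [← Real.rpow_add_one hπ0.ne']
    congr 1
    ring
  rw [e3, e4]
  have hA : 0 < (64:ℝ) ^ (s - 1) := by positivity
  have hC : 0 < (X:ℝ) ^ (2 * s - 3) := by positivity
  have hB : (Q:ℝ) ^ (-s) ≤ π ^ (-s) := Real.rpow_le_rpow_of_nonpos hπ0 hπQ (by linarith)
  calc (64:ℝ) ^ (s - 1) / 1152 * π ^ 3 * (Q:ℝ) ^ (-s) * (X:ℝ) ^ (2 * s - 3)
      ≤ (64:ℝ) ^ (s - 1) / 1152 * π ^ 3 * π ^ (-s) * (X:ℝ) ^ (2 * s - 3) := by gcongr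
    _ = (64:ℝ) ^ (s - 1) * ((X:ℝ) ^ (2 * s - 3) * X) * (π ^ (-s) * π) * (π ^ 2 / (1152 * X)) := by
        field_simp

end Pool.Agent.WeylTwo
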