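import Pool.Agent.WeylTwo.Spec

/-!
# `Lf`: the fourth moment on the boxes
-/

set_option autoImplicit false

noncomputable section

namespace Pool.Agent.WeylTwo

open Finset MeasureTheory Pool.Agent.Lib.MP_ccba9a_nt

/-- the indicator of divisibility -/
private def ind (p : ℕ) (d : ℤ) : ℝ := if (p : ℤ) ∣ d then 1 else 0

private lemma ind_nonneg (p : ℕ) (d : ℤ) : 0 ≤ ind p d := by
  unfold ind
  split_ifs <;> norm_num

private lemma cnt1 (p X : ℕ) (hp : 0 < p) (hpX : p ≤ X) (x : ℕ) :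
    ∑ y ∈ Icc 1 X, ind p ((x : ℤ) - y) ≤ 2 * X / p := by
  unfold ind
  have hpR : (0 : ℝ) < p := by exact_mod_cast hp
  have hpXR : (p : ℝ) ≤ X := by exact_mod_cast hpX
  rw [sum_boole]
  have h1 : (Icc 1 X).filter (fun y : ℕ => (p : ℤ) ∣ (x : ℤ) - y) =
      (Ioc 0 X).filter (fun y : ℕ => y ≡ x [MOD p]) := by
    ext y
    simp only [mem_filter, mem_Icc, mem_Ioc]
    rw [← Int.natCast_modEq_iff, Int.modEq_iff_dvd]
    constructor
    · rintro ⟨h, h'⟩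
      exact ⟨by omega, h'⟩
    · rintro ⟨h, h'⟩
      exact ⟨by omega, h'⟩
  rw [h1]
  have h2 := Nat.Ioc_filter_modEq_card 0 X hp x
  have h3 : (((Ioc 0 X).filter (fun y : ℕ => y ≡ x [MOD p])).card : ℤ) ≤
      ⌊(X : ℚ) / p⌋ + 1 := by
    rw [h2]
    refine max_le ?_ ?_
    · have h4 : ⌊((X : ℚ) - x) / p⌋ ≤ ⌊(X : ℚ) / p⌋ + ⌊((0 : ℕ) - (x : ℚ)) / p⌋ + 1 := by
        have h5 : ((X : ℚ) - x) / p = (X : ℚ) / p + ((0 : ℕ) - (x : ℚ)) / p := by
          push_cast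
          ring
        rw [h5]
        have := Int.le_floor_add_floor ((X : ℚ) / p) (((0 : ℕ) - (x : ℚ)) / p)
        linarith
      linarith
    · have : 0 ≤ ⌊(X : ℚ) / p⌋ := Int.floor_nonneg.2 (by positivity)
      linarith
  have h4 : (((((Ioc 0 X).filter (fun y : ℕ => y ≡ x [MOD p])).card : ℤ) : ℚ)) ≤
      (X : ℚ) / p + 1 := by
    have h5 : (((((Ioc 0 X).filter (fun y : ℕ => y ≡ x [MOD p])).card : ℤ) : ℚ)) ≤
        ((⌊(X : ℚ) / p⌋ + 1 : ℤ) : ℚ) := by exact_mod_cast h3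
    push_cast at h5 ⊢
    have := Int.floor_le ((X : ℚ) / p)
    linarith
  have h5 : (((Ioc 0 X).filter (fun y : ℕ => y ≡ x [MOD p])).card : ℝ) ≤ (X : ℝ) / p + 1 := by
    have h6 : (((((Ioc 0 X).filter (fun y : ℕ => y ≡ x [MOD p])).card : ℚ)) : ℝ) ≤
        (((X : ℚ) / p + 1 : ℚ) : ℝ) := by
      have h7 : ((((Ioc 0 X).filter (fun y : ℕ => y ≡ x [MOD p])).card : ℚ)) ≤
        (X : ℚ) / p + 1 := by simpa using h4
      exact_mod_cast h7
    push_cast at h6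
    exact h6
  refine h5.trans ?_
  have h6 : (1 : ℝ) ≤ X / p := by
    rw [le_div_iff₀ hpR]
    linarith
  have h7 : 2 * (X : ℝ) / p = X / p + X / p := by ring
  linarith

private lemma cnt2 (p X : ℕ) (hp : 0 < p) (hpX : p ≤ X) :
    ∑ x ∈ Icc 1 X, ∑ y ∈ Icc 1 X, ind p ((x : ℤ) - y) ≤ 2 * X ^ 2 / p := by
  calc ∑ x ∈ Icc 1 X, ∑ y ∈ Icc 1 X, ind p ((x : ℤ) - y)
      ≤ ∑ x ∈ Icc 1 X, 2 * (X : ℝ) / p := sum_le_sum fun x _ => cnt1 p X hp hpX x
    _ = 2 * X ^ 2 / p := by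
        rw [sum_const, nsmul_eq_mul]
        simp only [Nat.card_Icc, Nat.add_sub_cancel]
        ring

/-- the pairs -/
private def U (X : ℕ) : Finset (ℕ × ℕ) := Icc 1 X ×ˢ Icc 1 X

private def d1 (u v : ℕ × ℕ) : ℤ := ((u.1 : ℤ) + u.2) - (v.1 + v.2)

private def d2 (u v : ℕ × ℕ) : ℤ := ((u.1 : ℤ) ^ 2 + (u.2 : ℤ) ^ 2) - ((v.1 : ℤ) ^ 2 + (v.2 : ℤ) ^ 2)

private lemma point (p : ℕ) (hp : p.Prime) (hp2 : p ≠ 2) (u v : ℕ × ℕ) :
    ind p (d1 u v) * ind p (d2 u v) ≤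
      ind p ((u.1 : ℤ) - v.1) * ind p ((u.2 : ℤ) - v.2) +
        ind p ((u.1 : ℤ) - v.2) * ind p ((u.2 : ℤ) - v.1) := by
  have hpp : Prime (p : ℤ) := Nat.prime_iff_prime_int.1 hp
  by_cases h1 : (p : ℤ) ∣ d1 u v
  · by_cases h2 : (p : ℤ) ∣ d2 u v
    · have hkey : ((p : ℤ) ∣ (u.1 : ℤ) - v.1 ∧ (p : ℤ) ∣ (u.2 : ℤ) - v.2) ∨
          ((p : ℤ) ∣ (u.1 : ℤ) - v.2 ∧ (p : ℤ) ∣ (u.2 : ℤ) - v.1) := by
        unfold d1 at h1
        unfold d2 at h2
        -- `2 (u1 - v1)(u1 - v2)` is divisible by `p`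
        have h3 : (p : ℤ) ∣ 2 * (((u.1 : ℤ) - v.1) * ((u.1 : ℤ) - v.2)) := by
          have e : 2 * (((u.1 : ℤ) - v.1) * ((u.1 : ℤ) - v.2)) =
              (((u.1 : ℤ) ^ 2 + (u.2 : ℤ) ^ 2) - ((v.1 : ℤ) ^ 2 + (v.2 : ℤ) ^ 2)) -
              (((u.1 : ℤ) + u.2) - (v.1 + v.2)) * ((u.2 : ℤ) - u.1 + v.1 + v.2) := by ring
          rw [e]
          exact dvd_sub h2 (Dvd.dvd.mul_right h1 _)
        rcases hpp.dvd_or_dvd h3 with h4 | h4
        · exfalso
          have h5 : p ∣ 2 := by exact_mod_cast h4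
          exact hp2 ((Nat.prime_dvd_prime_iff_eq hp Nat.prime_two).1 h5)
        · rcases hpp.dvd_or_dvd h4 with h5 | h5
          · left
            refine ⟨h5, ?_⟩
            have e : (u.2 : ℤ) - v.2 = (((u.1 : ℤ) + u.2) - (v.1 + v.2)) - ((u.1 : ℤ) - v.1) := by
              ring
            rw [e]
            exact dvd_sub h1 h5
          · right
            refine ⟨h5, ?_⟩
            have e : (u.2 : ℤ) - v.1 = (((u.1 : ℤ) + u.2) - (v.1 + v.2)) - ((u.1 : ℤ) - v.2) := by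
              ring
            rw [e]
            exact dvd_sub h1 h5
      have hle : ind p (d1 u v) * ind p (d2 u v) = 1 := by
        unfold ind
        rw [if_pos h1, if_pos h2, one_mul]
      rw [hle]
      rcases hkey with ⟨h3, h4⟩ | ⟨h3, h4⟩
      · have : ind p ((u.1 : ℤ) - v.1) * ind p ((u.2 : ℤ) - v.2) = 1 := by
          unfold ind
          rw [if_pos h3, if_pos h4, one_mul]
        rw [this]
        have := mul_nonneg (ind_nonneg p ((u.1 : ℤ) - v.2)) (ind_nonneg p ((u.2 : ℤ) - v.1))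
        linarith
      · have : ind p ((u.1 : ℤ) - v.2) * ind p ((u.2 : ℤ) - v.1) = 1 := by
          unfold ind
          rw [if_pos h3, if_pos h4, one_mul]
        rw [this]
        have := mul_nonneg (ind_nonneg p ((u.1 : ℤ) - v.1)) (ind_nonneg p ((u.2 : ℤ) - v.2))
        linarith
    · have : ind p (d2 u v) = 0 := by unfold ind; rw [if_neg h2]
      rw [this, mul_zero]
      exact add_nonneg (mul_nonneg (ind_nonneg _ _) (ind_nonneg _ _))
        (mul_nonneg (ind_nonneg _ _) (ind_nonneg _ _))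
  · have : ind p (d1 u v) = 0 := by unfold ind; rw [if_neg h1]
    rw [this, zero_mul]
    exact add_nonneg (mul_nonneg (ind_nonneg _ _) (ind_nonneg _ _))
      (mul_nonneg (ind_nonneg _ _) (ind_nonneg _ _))

private lemma cnt4 (p X : ℕ) (hp : p.Prime) (hp2 : p ≠ 2) (hpX : p ≤ X) :
    (p : ℝ) ^ 2 * ∑ u ∈ U X, ∑ v ∈ U X, ind p (d1 u v) * ind p (d2 u v) ≤ 8 * X ^ 4 := by
  have hpR : (0 : ℝ) < p := by exact_mod_cast hp.pos
  set M : ℝ := ∑ x ∈ Icc 1 X, ∑ y ∈ Icc 1 X, ind p ((x : ℤ) - y) with hM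
  have hM0 : 0 ≤ M := sum_nonneg fun x _ => sum_nonneg fun y _ => ind_nonneg _ _
  have hM1 : M ≤ 2 * X ^ 2 / p := cnt2 p X hp.pos hpX
  have e1 : ∑ u ∈ U X, ∑ v ∈ U X, ind p ((u.1 : ℤ) - v.1) * ind p ((u.2 : ℤ) - v.2) = M * M := by
    unfold U
    rw [sum_product]
    simp_rw [sum_product]
    rw [hM, sum_mul_sum]
    refine sum_congr rfl fun x1 _ => ?_
    refine sum_congr rfl fun x2 _ => ?_
    rw [sum_mul_sum]
  have e2 : ∑ u ∈ U X, ∑ v ∈ U X, ind p ((u.1 : ℤ) - v.2) * ind p ((u.2 : ℤ) - v.1) = M * M := by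
    unfold U
    rw [sum_product]
    simp_rw [sum_product]
    rw [hM, sum_mul_sum]
    refine sum_congr rfl fun x1 _ => ?_
    refine sum_congr rfl fun x2 _ => ?_
    rw [sum_mul_sum, sum_comm]
  have h1 : ∑ u ∈ U X, ∑ v ∈ U X, ind p (d1 u v) * ind p (d2 u v) ≤ M * M + M * M := by
    rw [← e2]
    nth_rewrite 1 [e2]
    rw [← e1]
    rw [← sum_add_distrib]
    refine sum_le_sum fun u _ => ?_
    rw [← sum_add_distrib]
    exact sum_le_sum fun v _ => point p hp hp2 u v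
  have h2 : M * M ≤ (2 * X ^ 2 / p) * (2 * X ^ 2 / p) :=
    mul_le_mul hM1 hM1 hM0 (hM0.trans hM1)
  calc (p : ℝ) ^ 2 * ∑ u ∈ U X, ∑ v ∈ U X, ind p (d1 u v) * ind p (d2 u v)
      ≤ (p : ℝ) ^ 2 * (2 * ((2 * (X : ℝ) ^ 2 / p) * (2 * (X : ℝ) ^ 2 / p))) := by
        refine mul_le_mul_of_nonneg_left ?_ (by positivity)
        linarith
    _ = 8 * (X : ℝ) ^ 4 := by
        field_simp
        ring

private lemma normsq_sum' (s : Finset (ℕ × ℕ)) (g : ℕ × ℕ → ℂ) :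
    ‖∑ x ∈ s, g x‖ ^ 2 = (∑ x ∈ s, ∑ y ∈ s, g x * (starRingEnd ℂ) (g y)).re := by
  rw [← Finset.sum_mul_sum, ← map_sum, Complex.mul_conj, Complex.ofReal_re,
    Complex.normSq_eq_norm_sq]

/-- the summand of the square of the Weyl sum -/
private def gg (α0 α1 : ℝ) (u : ℕ × ℕ) : ℂ :=
  Complex.exp (2 * (Real.pi : ℂ) * Complex.I *
    ((α0 : ℂ) * ((u.1 : ℂ) + u.2) + (α1 : ℂ) * ((u.1 : ℂ) ^ 2 + (u.2 : ℂ) ^ 2)))

private lemma F_sq (X : ℕ) (α : Fin 2 → ℝ) : F X α ^ 2 = ∑ u ∈ U X, gg (α 0) (α 1) u := by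
  rw [F_eq, sq, sum_mul_sum]
  unfold U
  rw [sum_product]
  refine sum_congr rfl fun x _ => ?_
  refine sum_congr rfl fun y _ => ?_
  unfold gg
  rw [← Complex.exp_add]
  congr 1
  ring

private lemma F_four (X : ℕ) (α : Fin 2 → ℝ) :
    ‖F X α‖ ^ 4 = (∑ u ∈ U X, ∑ v ∈ U X,
      gg (α 0) (α 1) u * (starRingEnd ℂ) (gg (α 0) (α 1) v)).re := by
  rw [← normsq_sum', ← F_sq, norm_pow]
  ring

/-- the unimodular factor -/
private def ww (β0 β1 : ℝ) (u v : ℕ × ℕ) : ℂ :=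
  Complex.exp (2 * (Real.pi : ℂ) * Complex.I *
    ((β0 : ℂ) * (d1 u v : ℂ) + (β1 : ℂ) * (d2 u v : ℂ)))

private lemma ww_norm (β0 β1 : ℝ) (u v : ℕ × ℕ) : ‖ww β0 β1 u v‖ = 1 := by
  unfold ww
  have : 2 * (Real.pi : ℂ) * Complex.I * ((β0 : ℂ) * (d1 u v : ℂ) + (β1 : ℂ) * (d2 u v : ℂ)) =
      ((2 * Real.pi * (β0 * (d1 u v : ℝ) + β1 * (d2 u v : ℝ)) : ℝ) : ℂ) * Complex.I := by
    push_cast
    ring
  rw [this, Complex.norm_exp_ofReal_mul_I]

private lemma gg_split (p a b : ℕ) (β0 β1 : ℝ) (u v : ℕ × ℕ) :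
    gg ((b : ℝ) / p + β0) ((a : ℝ) / p + β1) u *
      (starRingEnd ℂ) (gg ((b : ℝ) / p + β0) ((a : ℝ) / p + β1) v) =
    Complex.exp (2 * (Real.pi : ℂ) * Complex.I * ((b : ℂ) / p * (d1 u v : ℂ))) *
      (Complex.exp (2 * (Real.pi : ℂ) * Complex.I * ((a : ℂ) / p * (d2 u v : ℂ))) *
        ww β0 β1 u v) := by
  unfold gg ww d1 d2
  rw [← Complex.exp_conj, ← Complex.exp_add, ← Complex.exp_add, ← Complex.exp_add]
  congr 1
  simp only [map_mul, map_add, map_pow, Complex.conj_ofReal, Complex.conj_I, map_natCast,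
    map_ofNat]
  push_cast
  ring

private lemma four_sum (p X : ℕ) (hp : p.Prime) (hp2 : p ≠ 2) (hpX : p ≤ X) (β0 β1 : ℝ) :
    ∑ a ∈ range p, ∑ b ∈ range p, ‖F X ![(b : ℝ) / p + β0, (a : ℝ) / p + β1]‖ ^ 4 ≤
      8 * X ^ 4 := by
  have h1 : ∀ a b : ℕ, ‖F X ![(b : ℝ) / p + β0, (a : ℝ) / p + β1]‖ ^ 4 =
      (∑ u ∈ U X, ∑ v ∈ U X,
        Complex.exp (2 * (Real.pi : ℂ) * Complex.I * ((b : ℂ) / p * (d1 u v : ℂ))) *
      (Complex.exp (2 * (Real.pi : ℂ) * Complex.I * ((a : ℂ) / p * (d2 u v : ℂ))) *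
        ww β0 β1 u v)).re := by
    intro a b
    rw [F_four]
    congr 1
    refine sum_congr rfl fun u _ => ?_
    refine sum_congr rfl fun v _ => ?_
    have := gg_split p a b β0 β1 u v
    simpa using this
  have h2 : ∑ a ∈ range p, ∑ b ∈ range p, ‖F X ![(b : ℝ) / p + β0, (a : ℝ) / p + β1]‖ ^ 4 =
      ∑ u ∈ U X, ∑ v ∈ U X, ((if (p : ℤ) ∣ d1 u v then (p : ℂ) else 0) *
        ((if (p : ℤ) ∣ d2 u v then (p : ℂ) else 0) * ww β0 β1 u v)).re := by
    simp_rw [h1]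
    simp_rw [← Complex.re_sum]
    congr 1
    have e1 : ∀ a : ℕ, ∑ b ∈ range p, ∑ u ∈ U X, ∑ v ∈ U X,
        Complex.exp (2 * (Real.pi : ℂ) * Complex.I * ((b : ℂ) / p * (d1 u v : ℂ))) *
      (Complex.exp (2 * (Real.pi : ℂ) * Complex.I * ((a : ℂ) / p * (d2 u v : ℂ))) *
        ww β0 β1 u v) = ∑ u ∈ U X, ∑ v ∈ U X, (if (p : ℤ) ∣ d1 u v then (p : ℂ) else 0) *
      (Complex.exp (2 * (Real.pi : ℂ) * Complex.I * ((a : ℂ) / p * (d2 u v : ℂ))) *
        ww β0 β1 u v) := by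
      intro a
      rw [sum_comm]
      refine sum_congr rfl fun u _ => ?_
      rw [sum_comm]
      refine sum_congr rfl fun v _ => ?_
      rw [← sum_mul, sum_exp_eq p hp.pos]
    simp_rw [e1]
    rw [sum_comm]
    refine sum_congr rfl fun u _ => ?_
    rw [sum_comm]
    refine sum_congr rfl fun v _ => ?_
    rw [← mul_sum, ← sum_mul, sum_exp_eq p hp.pos]
  rw [h2]
  refine le_trans ?_ (cnt4 p X hp hp2 hpX)
  rw [mul_sum]
  refine sum_le_sum fun u _ => ?_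
  rw [mul_sum]
  refine sum_le_sum fun v _ => ?_
  refine (Complex.re_le_norm _).trans (le_of_eq ?_)
  rw [norm_mul, norm_mul, ww_norm, mul_one]
  unfold ind
  by_cases h3 : (p : ℤ) ∣ d1 u v
  · by_cases h4 : (p : ℤ) ∣ d2 u v
    · rw [if_pos h3, if_pos h4, if_pos h3, if_pos h4]
      simp [sq]
    · rw [if_neg h4, if_neg h4]
      simp
  · rw [if_neg h3, if_neg h3]
    simp

private lemma four_int (p X : ℕ) (hp : p.Prime) (hp2 : p ≠ 2) (hpX : p ≤ X) (hX : 0 < X) :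
    ∑ a ∈ range p, ∑ b ∈ range p, ∫ α in Box X ![(b : ℝ) / p, (a : ℝ) / p], ‖F X α‖ ^ 4 ≤
      X / 18 := by
  have hXR : (0 : ℝ) < X := by exact_mod_cast hX
  have hcont : ∀ w : Fin 2 → ℝ, Continuous fun β : Fin 2 → ℝ => ‖F X (w + β)‖ ^ 4 := by
    intro w
    have := F_cont X
    fun_prop
  have h1 : ∑ a ∈ range p, ∑ b ∈ range p, ∫ α in Box X ![(b : ℝ) / p, (a : ℝ) / p],
      ‖F X α‖ ^ 4 = ∫ β in Box X 0, ∑ a ∈ range p, ∑ b ∈ range p,
        ‖F X (![(b : ℝ) / p, (a : ℝ) / p] + β)‖ ^ 4 := by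
    rw [integral_finsetSum]
    · refine sum_congr rfl fun a _ => ?_
      rw [integral_finsetSum]
      · refine sum_congr rfl fun b _ => ?_
        exact Box_shift X ![(b : ℝ) / p, (a : ℝ) / p] (fun α => ‖F X α‖ ^ 4)
      · intro b _
        exact Box_integrable X 0 _ (hcont _)
    · intro a _
      refine Box_integrable X 0 _ ?_
      exact continuous_finsetSum _ fun b _ => hcont _
  rw [h1]
  have h2 : ∀ β : Fin 2 → ℝ, ∑ a ∈ range p, ∑ b ∈ range p,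
      ‖F X (![(b : ℝ) / p, (a : ℝ) / p] + β)‖ ^ 4 ≤ 8 * (X : ℝ) ^ 4 := by
    intro β
    refine le_trans (le_of_eq ?_) (four_sum p X hp hp2 hpX (β 0) (β 1))
    refine sum_congr rfl fun a _ => ?_
    refine sum_congr rfl fun b _ => ?_
    have : (![(b : ℝ) / p, (a : ℝ) / p] + β) = ![(b : ℝ) / p + β 0, (a : ℝ) / p + β 1] := by
      funext j
      fin_cases j <;> simp
    rw [this]
  calc ∫ β in Box X 0, ∑ a ∈ range p, ∑ b ∈ range p,
        ‖F X (![(b : ℝ) / p, (a : ℝ) / p] + β)‖ ^ 4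
      ≤ ∫ β in Box X 0, 8 * (X : ℝ) ^ 4 := by
        refine setIntegral_mono_on ?_ ?_ (Box_meas X 0) fun β _ => h2 β
        · refine Box_integrable X 0 _ ?_
          exact continuous_finsetSum _ fun a _ => continuous_finsetSum _ fun b _ => hcont _
        · exact integrableOn_const (Box_fin X 0)
    _ = (volume (Box X 0)).toReal * (8 * (X : ℝ) ^ 4) := by
        rw [setIntegral_const]; rfl
    _ = X / 18 := by
        rw [Box_vol]
        field_simp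
        norm_num

theorem tLf : S_Lf := by
  intro X Q hX hQX
  have hS : ∀ s ∈ S Q, s.1.Prime ∧ s.1 ≤ X ∧ 1 ≤ s.2 ∧ s.2 < s.1 := by
    intro s hs
    rw [S, mem_filter, mem_product, Nat.mem_primesLE, Nat.mem_primesLE] at hs
    obtain ⟨⟨⟨h1, h2⟩, ⟨h3, h4⟩⟩, h5⟩ := hs
    exact ⟨h2, h1.trans hQX, h4.one_lt.le, h5⟩
  have hcont : Continuous fun α : Fin 2 → ℝ => ‖F X α‖ ^ 4 := by
    have := F_cont X
    fun_prop
  unfold T
  rw [integral_biUnion_finset]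
  · rw [Finset.sum_sigma]
    set G : ℕ × ℕ → ℝ := fun s => ∑ b ∈ range s.1,
      ∫ α in Box X ![(b : ℝ) / s.1, (s.2 : ℝ) / s.1], ‖F X α‖ ^ 4 with hG
    have hG0 : ∀ s, 0 ≤ G s := by
      intro s
      refine sum_nonneg fun b _ => ?_
      exact integral_nonneg fun α => by positivity
    show ∑ s ∈ S Q, G s ≤ _
    rw [S, sum_filter, sum_product]
    have hp : ∀ p ∈ Nat.primesLE Q, ∑ a ∈ Nat.primesLE Q, (if a < p then G (p, a) else 0) ≤
        (X : ℝ) / 18 := by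
      intro p hp
      rw [Nat.mem_primesLE] at hp
      rw [← sum_filter]
      by_cases h2 : p = 2
      · have : (Nat.primesLE Q).filter (fun a => a < p) = ∅ := by
          rw [filter_eq_empty_iff]
          intro a ha
          rw [Nat.mem_primesLE] at ha
          have := ha.2.two_le
          omega
        rw [this, sum_empty]
        positivity
      · calc ∑ a ∈ (Nat.primesLE Q).filter (fun a => a < p), G (p, a)
            ≤ ∑ a ∈ range p, G (p, a) := by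
              refine sum_le_sum_of_subset_of_nonneg ?_ fun a _ _ => hG0 _
              intro a ha
              rw [mem_filter] at ha
              exact mem_range.2 ha.2
          _ ≤ X / 18 := four_int p X hp.2 h2 (hp.1.trans hQX) hX
    calc ∑ p ∈ Nat.primesLE Q, ∑ a ∈ Nat.primesLE Q, (if a < p then G (p, a) else 0)
        ≤ ∑ p ∈ Nat.primesLE Q, (X : ℝ) / 18 := sum_le_sum hp
      _ = (Nat.primeCounting Q : ℝ) * X / 18 := by
          rw [sum_const, nsmul_eq_mul]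
          have : (Nat.primesLE Q).card = Nat.primeCounting Q := by simp
          rw [this]
          ring
  · intro i _
    exact Box_meas X _
  · intro i hi i' hi' hne
    rw [Finset.mem_coe, Finset.mem_sigma] at hi hi'
    obtain ⟨hp, hpX, ha, hap⟩ := hS i.1 hi.1
    obtain ⟨hp', hpX', ha', hap'⟩ := hS i'.1 hi'.1
    refine Box_disj X _ _ _ _ _ _ hX hp hp' hpX hpX' ha hap ha' hap' ?_
    rintro ⟨h1, h2, h3⟩
    apply hne
    obtain ⟨⟨a, b⟩, c⟩ := i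
    obtain ⟨⟨a', b'⟩, c'⟩ := i'
    simp only at h1 h2 h3
    subst h1 h2 h3
    rfl
  · intro i _
    exact Box_integrable X _ _ hcont

end Pool.Agent.WeylTwo
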