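import Pool.Agent.WeylTwo.Spec

/-!
# A lower bound for the number of primes
-/

noncomputable section

namespace Pool.Agent.WeylTwo

open Finset MeasureTheory Pool.Agent.Lib.MP_ccba9a_nt

theorem tPi : S_Pi := by
  intro δ hδ
  have h1 : ∀ᶠ x : ℝ in Filter.atTop, Real.log x ≤ 1 / 4 * x ^ δ := by
    have h := (isLittleO_log_rpow_atTop hδ).def (by norm_num : (0 : ℝ) < 1 / 4)
    filter_upwards [h, Filter.eventually_ge_atTop (1 : ℝ)] with x hx hx1
    have h0 : (0 : ℝ) ≤ x ^ δ := Real.rpow_nonneg (by linarith) _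
    rw [Real.norm_eq_abs, Real.norm_eq_abs, abs_of_nonneg h0] at hx
    exact (le_abs_self _).trans hx
  have h2 : ∀ᶠ x : ℝ in Filter.atTop, Real.log x ≤ 1 / 5 * x := by
    have h := (isLittleO_log_rpow_atTop (zero_lt_one (α := ℝ))).def (by norm_num : (0 : ℝ) < 1 / 5)
    filter_upwards [h, Filter.eventually_ge_atTop (1 : ℝ)] with x hx hx1
    rw [Real.rpow_one, Real.norm_eq_abs, Real.norm_eq_abs, abs_of_nonneg (by linarith : (0 : ℝ) ≤ x)]
      at hx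
    exact (le_abs_self _).trans hx
  have t1 : Filter.Tendsto (fun Q : ℕ => (Q : ℝ)) Filter.atTop Filter.atTop :=
    tendsto_natCast_atTop_atTop
  have t2 : Filter.Tendsto (fun Q : ℕ => (Q : ℝ) + 1) Filter.atTop Filter.atTop :=
    Filter.tendsto_atTop_add_const_right _ _ t1
  obtain ⟨Q0, hQ0⟩ := Filter.eventually_atTop.1
    ((t1.eventually h1).and ((t2.eventually h2).and (Filter.eventually_ge_atTop (2 : ℕ))))
  refine ⟨Q0, fun Q hQ => ?_⟩
  obtain ⟨g1, g2, g3⟩ := hQ0 Q hQ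
  have hQR : (2 : ℝ) ≤ Q := by exact_mod_cast g3
  have hQ0' : (0 : ℝ) < Q := by linarith
  have hlog : 0 < Real.log Q := Real.log_pos (by linarith)
  refine le_trans ?_ (Chebyshev.pi_ge Q)
  rw [le_div_iff₀ hlog]
  have hl2 := Real.log_two_gt_d9
  have e1 : (Q : ℝ) ^ (1 - δ) * (Q : ℝ) ^ δ = Q := by
    rw [← Real.rpow_add hQ0']
    rw [sub_add_cancel, Real.rpow_one]
  have e2 : (Q : ℝ) ^ (1 - δ) * Real.log Q ≤ (Q : ℝ) ^ (1 - δ) * (1 / 4 * (Q : ℝ) ^ δ) :=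
    mul_le_mul_of_nonneg_left g1 (Real.rpow_nonneg hQ0'.le _)
  have e3 : (Q : ℝ) ^ (1 - δ) * (1 / 4 * (Q : ℝ) ^ δ) = 1 / 4 * Q := by
    linear_combination (1 / 4 : ℝ) * e1
  nlinarith

end Pool.Agent.WeylTwo
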