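import Mathlib
import Pool.Agent.Lib.MP_ccba9a_nt.Weyl

/-!
# Mean values of quadratic Weyl sums over sets of large measure: every exponent `0 < s < 3`

Every `S_X : Prop` of this file is to be proved as `theorem tX : S_X` (with the `S_Y` named under Uses as
explicit hypotheses) in `WeylTwo/X.lean`. The docstrings contain the complete proofs. `F`, `Box`, `T`, `S` are those of
`Pool/Agent/Lib/MP_ccba9a_nt/Weyl.lean`: `F X α = ∑_{x ≤ X} e(α_0 x + α_1 x^2)`, `S Q` = pairs `(p, a)` of primes `a < p ≤ Q`,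
`T X (S Q)` = the union of the boxes with corner `(b/p, a/p)` and sides `1/(12 X)`, `1/(12 X^2)`, `0 ≤ b < p`.
-/

noncomputable section

namespace Pool.Agent.WeylTwo

open Finset MeasureTheory Pool.Agent.Lib.MP_ccba9a_nt

/-- (60 lines) **Number of primes.** Uses nothing.
PROOF. `Chebyshev.pi_ge` (see its use in `pi_lower` in `Pool/Agent/Lib/MP_ccba9a_nt/Weyl.lean`) gives `π(Q) ≥ (Q log 2 - log (Q+1)) / log Q`-like bounds, so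
`π(Q) ≥ Q / (4 log Q)` for large `Q`, and `4 log Q ≤ Q^δ` for large `Q` (`isLittleO_log_rpow_atTop`). -/
def S_Pi : Prop :=
  ∀ δ : ℝ, 0 < δ → ∃ Q0 : ℕ, ∀ Q : ℕ, Q0 ≤ Q → (Q : ℝ) ^ (1 - δ) ≤ (Nat.primeCounting Q : ℝ)

/-- (180 lines) **Fourth moment on the boxes.** Uses nothing.
PROOF. (1) Let `p` be an odd prime, `p ≤ X`. The number `N` of `x ∈ [1,X]^4` with `x_1 + x_2 ≡ x_3 + x_4`, `x_1^2 + x_2^2 ≡ x_3^2 + x_4^2` (mod `p`) is at most `8 X^4/p^2`: from the congruences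
`(x_1 - x_3) ≡ (x_4 - x_2)` and `(x_1 - x_3)(x_1 + x_3) ≡ (x_4 - x_2)(x_4 + x_2)`, so `x_1 ≡ x_3` (then `x_2 ≡ x_4`) or `x_1 + x_3 ≡ x_4 + x_2` (then, adding, `2 x_1 ≡ 2 x_4`, `x_1 ≡ x_4`, `x_2 ≡ x_3`). So
`N ≤ 2 M^2` with `M = #{(x,y) ∈ [1,X]^2 | x ≡ y} ≤ X (X/p + 1) ≤ 2 X^2/p`.
(2) For all real `β_0, β_1`: `∑_{a<p} ∑_{b<p} |F(b/p + β_0, a/p + β_1)|^4 = ∑_{x ∈ [1,X]^4} (unimodular factor) * ∑_b e(b (x_1+x_2-x_3-x_4)/p) * ∑_a e(a (x_1^2+x_2^2-x_3^2-x_4^2)/p)`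
(`|F|^4 = F F conj F conj F`), of absolute value at most `p^2 N ≤ 8 X^4` (`sum_exp_eq` in Weyl.lean gives the complete exponential sums).
(3) `∫_T ≤ ∑_{(p,a) ∈ S Q} ∑_{b<p} ∫_{Box X (b/p, a/p)} |F|^4 ≤ ∑_{p ≤ Q prime} ∫_{Box X 0} ∑_{a,b<p} |F(b/p + β_0, a/p + β_1)|^4 dβ` (`Box_shift`), the pairs in `S Q` have `p ≥ 3`, and the box has measure
`1/(144 X^3)` (`Box_vol`): total `π(Q) 8 X^4/(144 X^3)`. -/
def S_Lf : Prop :=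
  ∀ X Q : ℕ, 0 < X → Q ≤ X →
    ∫ α in T X (S Q), ‖F X α‖ ^ 4 ≤ (Nat.primeCounting Q : ℝ) * X / 18

/-- (100 lines) **Lower bound, `s ≥ 1`.** Uses nothing.
PROOF. `n = |S Q|`, `n ≥ π(Q)^2/4` (`S_card_ge`, `π(Q) ≥ 2`), `T = T X (S Q)`. `T_int`: `∫_T |F|^2 ≥ n/(288 X)`. `T_vol`: `V = vol T ≤ n Q/(144 X^3)`; `V > 0` as the integral is positive. Hölder (or Jensen for `t ↦ t^s`):
`∫_T |F|^2 ≤ V^{1-1/s} (∫_T |F|^{2s})^{1/s}`, so `∫_T |F|^{2s} ≥ V^{1-s} (∫_T |F|^2)^s ≥ (n Q/(144 X^3))^{1-s} (n/(288 X))^s = n Q^{1-s} X^{2s-3}/(144 * 2^s)`. With `n ≥ π^2/4` and `Q ≥ π(Q)`: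
at least `κ π(Q)^3 Q^{-s} X^{2s-3}`, `κ = 1/(576 * 2^s)`. (The sets are bounded and `F` is continuous: everything is integrable.) -/
def S_La : Prop :=
  ∀ s : ℝ, 1 ≤ s → ∃ κ : ℝ, 0 < κ ∧ ∀ X Q : ℕ, Q ≤ X → 2 ≤ Nat.primeCounting Q →
    κ * (Nat.primeCounting Q : ℝ) ^ 3 * (Q : ℝ) ^ (-s) * (X : ℝ) ^ (2 * s - 3) ≤
      ∫ α in T X (S Q), ‖F X α‖ ^ (2 * s)

/-- (120 lines) **Lower bound, `0 < s < 1`.** Uses `S_Lf`.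
PROOF. Hölder with the exponents `2 - s` and `(2-s)/(1-s)`: `|F|^2 = |F|^{2s/(2-s)} * |F|^{4(1-s)/(2-s)}` (`2s + 4(1-s) = 2(2-s)`), so
`∫_T |F|^2 ≤ (∫_T |F|^{2s})^{1/(2-s)} (∫_T |F|^4)^{(1-s)/(2-s)}`, i.e. `∫_T |F|^{2s} ≥ (∫_T |F|^2)^{2-s} / (∫_T |F|^4)^{1-s}`. With `∫_T |F|^2 ≥ n/(288 X) ≥ π^2/(1152 X)` (`T_int`, `S_card_ge`, `π = π(Q) ≥ 2`) and
`∫_T |F|^4 ≤ π X/18` (`S_Lf`; it is positive): at least `κ π^{3-s} X^{2s-3} ≥ κ π^3 Q^{-s} X^{2s-3}` (`π(Q) ≤ Q`), `κ = 1152^{s-2} 18^{1-s}`. -/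
def S_Lb : Prop :=
  ∀ s : ℝ, 0 < s → s < 1 → ∃ κ : ℝ, 0 < κ ∧ ∀ X Q : ℕ, Q ≤ X → 2 ≤ Nat.primeCounting Q →
    κ * (Nat.primeCounting Q : ℝ) ^ 3 * (Q : ℝ) ^ (-s) * (X : ℝ) ^ (2 * s - 3) ≤
      ∫ α in T X (S Q), ‖F X α‖ ^ (2 * s)

/-- (180 lines) **The theorem.** Uses `S_Pi`, `S_La`, `S_Lb`.
PROOF. Let `C` be given (we may take `C ≥ 1`), `κ` from `S_La` or `S_Lb`, `δ > 0` with `15 δ < s - 6 ε` and `15 δ < 5 (3 - s) - 6 ε`. Take `X = m^6`, `Q = m^5`, `m → ∞`. `B = T ∪ B0` with `T = T X (S Q)` and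
`B0 = [0, w) × [0, 1)`, `w = c X^{-1/2} = c m^{-3}` (`≤ 1` for large `m`; see `B0`, `B0_vol`, `B0_sub` and the whole `final_ineq` in `Pool/Agent/S18512.lean` for the same construction). `vol B ≥ vol B0 = w`, and
`vol B ≤ w + |S Q| Q/(144 X^3) ≤ w + (Q+1)^2 Q/(144 X^3) ≤ (c + 1) m^{-3}` (`T_vol`, `S_card_le`). Left side of the inequality: at least `∫_T ≥ κ π(Q)^3 Q^{-s} X^{2s-3} ≥ κ m^{15(1-δ) - 5s + 12 s - 18} = κ m^{7s - 3 - 15 δ}` (`S_Pi`; `π(Q) ≥ 2` for large `m`).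
Right side: at most `C m^{6ε} (m^{6s} (c+1) m^{-3} + m^{12 s - 18})`. The quotients of the left side by the two terms are at least constants times `m^{s - 6ε - 15δ}` and `m^{5(3-s) - 6ε - 15δ}`, both tend to infinity: contradiction. -/
def S_End : Prop :=
  ∀ s c ε : ℝ, 0 < s → s < 3 → 0 < c → 0 < ε → 6 * ε < s → 6 * ε < 5 * (3 - s) →
    ¬ ∃ C : ℝ, ∀ X : ℕ, 1 ≤ X → ∀ B : Set (Fin 2 → ℝ), MeasurableSet B →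
      B ⊆ Set.pi Set.univ (fun _ => Set.Ico (0:ℝ) 1) →
      c * (X : ℝ) ^ (-(1/2) : ℝ) ≤ (volume B).toReal →
      ∫ α in B, ‖F X α‖ ^ (2 * s) ≤
        C * (X : ℝ) ^ ε * ((X : ℝ) ^ s * (volume B).toReal + (X : ℝ) ^ (2 * s - 3))

end Pool.Agent.WeylTwo
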